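import Pool.Agent.Helper85_LG.General

set_option autoImplicit false

namespace Pool.Agent.Results.MP_b44554_al.GeneralYes

open Pool.Agent.Helper85_LG

/-- There are equivalent strong Maltsev conditions `S₁`, `S₂` such that `S₁` has the local-global
property and `S₂` does not. Moreover `S₁` can be taken linear, with the `1`-local-global property
and with a model with more than one element, and the failure of `S₂` is witnessed for every `k` by
a finite algebra with finitely many basic operations. -/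
theorem result : ∃ S₁ S₂ : StrongMaltsev,
    S₁.Equivalent S₂ ∧ S₁.LocalGlobal ∧ ¬ S₂.LocalGlobal ∧
    S₁.Linear ∧ S₁.KLocalGlobal 1 ∧ (∃ A : Alg, Nontrivial A.carrier ∧ S₁.Sat A) ∧
    ∀ k : ℕ, ∃ A : Alg, Finite A.carrier ∧ Finite A.Op ∧
      (k : Cardinal) ≤ Cardinal.mk A.carrier ^ S₂.numVar ∧
      (∀ F : Finset (Fin S₂.numVar → A.carrier), F.card = k → S₂.SatOn A F) ∧
      ¬ S₂.Sat A := by
  refine ⟨commS, hardS, comm_equiv_hard, ⟨1, le_rfl, commS_one_localGlobal⟩,
    hardS_not_localGlobal, ?_, commS_one_localGlobal, ?_, hardS_witness⟩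
  · intro e he
    rcases List.mem_singleton.1 he with rfl
    refine ⟨Or.inr ⟨(0 : Fin 1), (![0, 1] : Fin 2 → Fin 2), ?_⟩,
      Or.inr ⟨(0 : Fin 1), (![1, 0] : Fin 2 → Fin 2), ?_⟩⟩
    · change MTerm.app (0 : Fin 1) _ = MTerm.app (0 : Fin 1) _
      congr 1
      funext (j : Fin 2)
      fin_cases j <;> rfl
    · change MTerm.app (0 : Fin 1) _ = MTerm.app (0 : Fin 1) _
      congr 1
      funext (j : Fin 2)
      fin_cases j <;> rfl
  · let B : Alg := ⟨Bool, ⟨true⟩, Unit, fun _ => 2, fun _ x => x 0 && x 1⟩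
    refine ⟨B, inferInstanceAs (Nontrivial Bool), ?_⟩
    refine commS_satOn_iff.2 ⟨B.op (), Alg.Clo.basic (A := B) (), ?_⟩
    change ∀ x ∈ (Set.univ : Set (Fin 2 → Bool)), (x 0 && x 1) = (x 1 && x 0)
    intro x _
    exact Bool.and_comm _ _

end Pool.Agent.Results.MP_b44554_al.GeneralYes
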