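import Pool.Agent.Helper85_LG.Split

set_option autoImplicit false

namespace Pool.Agent.Results.MP_b44554_al.LinearNo

open Pool.Agent.Helper85_LG

/-- For linear strong Maltsev conditions the local-global property does not depend on the
presentation: if two linear strong Maltsev conditions hold in the same algebras, then one has the
local-global property if and only if the other has. -/
theorem result (S₁ S₂ : StrongMaltsev) (h₁ : S₁.Linear) (h₂ : S₂.Linear)
    (h : S₁.Equivalent S₂) : S₁.LocalGlobal ↔ S₂.LocalGlobal :=
  ⟨StrongMaltsev.localGlobal_of_equivalent h₁ h₂ h,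
    StrongMaltsev.localGlobal_of_equivalent h₂ h₁ ⟨h.2, h.1⟩⟩

end Pool.Agent.Results.MP_b44554_al.LinearNo
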